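import Pool.Agent.Y511.LM.A

/-!
# Movements of the chords of a convex body and the non-symmetric `L^p`-Mahler conjecture

Let `K ⊂ ℝ^n` be any convex body (no symmetry), and let the chords of `K` parallel to `θ` be
translated by `t β θ`, where the continuous function `β` is constant on the lines parallel to `θ`.
Then `t ↦ 1 / inf_z M_p(K_t - z)` is convex at `t = 0` in the sense of the theorem below, for every
`p > 0`, and strictly so unless `β` is affine on `K`.  Hence a body of smallest `M_p` is rigid: it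
has only affine movements of its chords among convex bodies.  The inequality of Q1 for all
positions of `K_{-a}` and `K_b` implies it for all positions of `K`, and Q1 holds for every `p > 0`
in all dimensions on the smallest class of bodies which contains the free sums of planar bodies and
simplices (so all planar bodies and all polytopes with at most `n + 2` vertices) and is closed
under products with boxes, affine bijections and the passage from `K_{-a}` and `K_b` to `K`.

The convexity (for a given position) is the movement theorem of helper131 in the starting library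
(`Pool.Agent.H131R5.LC`), which has been used there only for special movements of the vertices of
polytopes; the base of the class and the boxes are starting results of this problem.
-/

set_option autoImplicit false

noncomputable section

open MeasureTheory Module
open scoped ENNReal

namespace Pool.Agent.Results.MP_5f4cdd_gt.ChordMovements

/-- convex bodies in `ℝⁿ` (in any position) -/
def Body {n : ℕ} (K : Set (Fin n → ℝ)) : Prop := Convex ℝ K ∧ IsCompact K ∧ (interior K).Nonempty

/-- The `L^p`-Mahler volume `M_p(K) = vol(K) ∫ exp(-h_{p,K}(y)) dy` for `0 < p < ∞`, where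
`exp(-h_{p,K}(y)) = ((1/vol K) ∫_K exp(p⟨x,y⟩) dx)^(-1/p)`. -/
def mahlerVolume {n : ℕ} (p : ℝ) (K : Set (Fin n → ℝ)) : ℝ≥0∞ :=
  volume K * ∫⁻ y : Fin n → ℝ, ENNReal.ofReal
    (((∫ x in K, Real.exp (p * ∑ i, x i * y i)) / (volume K).toReal) ^ (-(1 / p)))

/-- the translate `K - z` -/
def shift {n : ℕ} (K : Set (Fin n → ℝ)) (z : Fin n → ℝ) : Set (Fin n → ℝ) := (fun x => x - z) '' K

/-- the infimum of `M_p(K - z)` over all positions -/
def mahlerMin {n : ℕ} (p : ℝ) (K : Set (Fin n → ℝ)) : ℝ≥0∞ :=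
  ⨅ z : Fin n → ℝ, mahlerVolume p (shift K z)

/-- the standard simplex `Δ_n` -/
def simplex (n : ℕ) : Set (Fin n → ℝ) := {z | (∀ i, 0 ≤ z i) ∧ ∑ i, z i ≤ 1}

/-- the infimum of `M_p(Δ_n - x)` over `x ∈ Δ_n` -/
def simplexInf (n : ℕ) (p : ℝ) : ℝ≥0∞ :=
  ⨅ x ∈ simplex n, mahlerVolume p ((fun z : Fin n → ℝ => z - x) '' simplex n)

/-- the set `K_t = {x + t β(x) θ : x ∈ K}` -/
def move {n : ℕ} (θ : Fin n → ℝ) (β : (Fin n → ℝ) → ℝ) (t : ℝ) (K : Set (Fin n → ℝ)) :
    Set (Fin n → ℝ) := (fun x => x + (t * β x) • θ) '' K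

/-- the velocities of the chords parallel to `θ`: continuous, and constant on the lines parallel
to `θ` -/
def IsVelocity {n : ℕ} (θ : Fin n → ℝ) (β : (Fin n → ℝ) → ℝ) : Prop :=
  Continuous β ∧ ∀ (x : Fin n → ℝ) (s : ℝ), β (x + s • θ) = β x

/-- `β` is not affine on `K` -/
def NotAffineOn {n : ℕ} (K : Set (Fin n → ℝ)) (β : (Fin n → ℝ) → ℝ) : Prop :=
  ∃ x ∈ K, ∃ y ∈ K, ∃ t : ℝ, 0 < t ∧ t < 1 ∧ β ((1 - t) • x + t • y) ≠ (1 - t) * β x + t * β y

/-- the product `K × [a_1,b_1] × … × [a_j,b_j] ⊆ ℝ^(n+j)` -/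
def boxProduct {n j : ℕ} (K : Set (Fin n → ℝ)) (a b : Fin j → ℝ) : Set (Fin (n + j) → ℝ) :=
  {w | (fun i : Fin n => w (Fin.castAdd j i)) ∈ K ∧ ∀ i : Fin j, w (Fin.natAdd n i) ∈ Set.Icc (a i) (b i)}

/-- free sums of planar convex bodies and simplices: the hull of the union of convex bodies `A i`
which share the point `q`, lie in `q + V i` with `∑ dim V i ≤ n`, and are simplices if
`dim V i ≠ 2` -/
def IsFreeSum {n : ℕ} (K : Set (Fin n → ℝ)) : Prop :=
  ∃ (m : ℕ) (V : Fin m → Submodule ℝ (Fin n → ℝ)) (A : Fin m → Set (Fin n → ℝ)) (q : Fin n → ℝ),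
    ∑ i, finrank ℝ (V i) ≤ n ∧
    (∀ i, IsCompact (A i) ∧ Convex ℝ (A i) ∧ q ∈ A i ∧ ∀ x ∈ A i, x - q ∈ V i) ∧
    (∀ i, finrank ℝ (V i) = 2 ∨ ∃ S : Finset (Fin n → ℝ),
      S.card ≤ finrank ℝ (V i) + 1 ∧ A i = convexHull ℝ (S : Set (Fin n → ℝ))) ∧
    K = convexHull ℝ (⋃ i, A i) ∧ (interior K).Nonempty

/-- the smallest class of convex bodies which contains the free sums of planar convex bodies and
simplices and is closed under products with boxes, affine bijections, and the passage from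
`K_{-a}` and `K_b` to the convex body `K = K_0` -/
inductive Generated : (n : ℕ) → Set (Fin n → ℝ) → Prop
  | freeSum {n : ℕ} {K : Set (Fin n → ℝ)} (hK : IsFreeSum K) : Generated n K
  | box {n j : ℕ} {K : Set (Fin n → ℝ)} (hK : Generated n K) {a b : Fin j → ℝ}
      (hab : ∀ i, a i < b i) : Generated (n + j) (boxProduct K a b)
  | affine {n : ℕ} {K : Set (Fin n → ℝ)} (hK : Generated n K)
      (T : (Fin n → ℝ) ≃ₗ[ℝ] (Fin n → ℝ)) (z : Fin n → ℝ) : Generated n (shift (T '' K) z)
  | between {n : ℕ} {K : Set (Fin n → ℝ)} (hK : Body K) {θ : Fin n → ℝ}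
      {β : (Fin n → ℝ) → ℝ} (hβ : IsVelocity θ β) {a b : ℝ} (ha : 0 < a) (hb : 0 < b)
      (h₁ : Generated n (move θ β (-a) K)) (h₂ : Generated n (move θ β b K)) : Generated n K

open Pool.Agent.H131R5.LM Pool.Agent.H131R5.LC
open Pool.Agent.Y511.LM (mv_int sub_compact sub_int)

/-- the convexity and its strict form, for every position of `K` -/
lemma movement {n : ℕ} {p : ℝ} (hp : 0 < p) {K : Set (Fin n → ℝ)} (hK : Body K)
    {θ : Fin n → ℝ} {β : (Fin n → ℝ) → ℝ} (hβ : IsVelocity θ β) {a b : ℝ} (ha : 0 < a)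
    (hb : 0 < b) (z : Fin n → ℝ) :
    (mahlerVolume p (shift K z))⁻¹ ≤
      ENNReal.ofReal (b / (a + b)) * (mahlerMin p (move θ β (-a) K))⁻¹ +
        ENNReal.ofReal (a / (a + b)) * (mahlerMin p (move θ β b K))⁻¹ ∧
    (θ ≠ 0 → NotAffineOn K β → (mahlerVolume p (shift K z))⁻¹ <
      ENNReal.ofReal (b / (a + b)) * (mahlerMin p (move θ β (-a) K))⁻¹ +
        ENNReal.ofReal (a / (a + b)) * (mahlerMin p (move θ β b K))⁻¹) :=
  Pool.Agent.Y511.LM.movement hp hK.2.1 hK.1 hK.2.2 θ β hβ.1 hβ.2 ha hb z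

lemma shift_body {n : ℕ} {K : Set (Fin n → ℝ)} (hK : Body K) (z : Fin n → ℝ) :
    Body (shift K z) := by
  refine ⟨?_, sub_compact hK.2.1 z, ?_⟩
  · have h1 := hK.1.translate (-z)
    have h3 : (fun w => -z + w) '' K = shift K z := by
      refine Set.image_congr fun w _ => ?_
      abel
    rwa [h3] at h1
  · have h := sub_int (K := K) z
    show (interior ((fun x => x - z) '' K)).Nonempty
    rw [h]
    exact hK.2.2.image _

lemma box_convex {n j : ℕ} {K : Set (Fin n → ℝ)} (hK : Convex ℝ K) (a b : Fin j → ℝ) :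
    Convex ℝ (boxProduct K a b) := by
  intro x hx y hy s t hs ht hst
  refine ⟨hK hx.1 hy.1 hs ht hst, fun i => ?_⟩
  exact convex_Icc (𝕜 := ℝ) (a i) (b i) (hx.2 i) (hy.2 i) hs ht hst

lemma QQ_le (n j : ℕ) : Pool.Agent.TH649.LP.QQ n j ≤ 1 :=
  Finset.prod_le_one (fun _ _ => (Pool.Agent.TH649.LP.qN_pos (by omega)).le)
    fun _ _ => Pool.Agent.TH649.LP.qN_le (by omega)

lemma freeSum {n : ℕ} {p : ℝ} (hp : 0 < p) {K : Set (Fin n → ℝ)} (hK : IsFreeSum K) :
    Body K ∧ LB p (II n p) K := by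
  obtain ⟨m, V, A, q, hV, hA, ht, rfl, hi⟩ := hK
  refine ⟨⟨convex_convexHull ℝ _, Pool.Agent.W679.A.compact_UN fun i => (hA i).1, hi⟩, ?_⟩
  classical
  have hcv : ∀ X : Set (Fin n → ℝ), Convex ℝ X → Convex ℝ ((fun x => x - q) '' X) := by
    intro X hX
    have h1 := hX.translate (-q)
    have h2 : (fun z => -q + z) '' X = (fun x => x - q) '' X := by
      refine Set.image_congr fun z _ => ?_
      abel
    rwa [h2] at h1
  have hbody : convexHull ℝ (⋃ i, (fun x => x - q) '' A i) =
      (fun x => x - q) '' convexHull ℝ (⋃ i, A i) := by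
    rw [Pool.Agent.H131R5.LC.hull_sub, Set.image_iUnion]
  have hint : (interior (convexHull ℝ (⋃ i, (fun x => x - q) '' A i))).Nonempty := by
    rw [hbody]
    have h2 : (fun x => x - q) '' interior (convexHull ℝ (⋃ i, A i)) =
        interior ((fun x => x - q) '' convexHull ℝ (⋃ i, A i)) :=
      (Homeomorph.subRight q).image_interior _
    rw [← h2]
    exact hi.image _
  have h := Pool.Agent.W679.A.full hp V hV (fun i => (fun x => x - q) '' A i)
    (fun i => (hA i).1.image (by fun_prop)) (fun i => hcv _ (hA i).2.1)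
    (fun i => ⟨q, (hA i).2.2.1, sub_self q⟩)
    (fun i => by rintro _ ⟨x, hx, rfl⟩; exact (hA i).2.2.2 x hx)
    (fun i => by
      rcases ht i with h | ⟨S, hS, hAS⟩
      · exact Or.inl h
      · refine Or.inr ⟨S.image (fun x => x - q), Finset.card_image_le.trans hS, ?_⟩
        rw [hAS, Pool.Agent.H131R5.LC.hull_sub, Finset.coe_image])
    hint
  rw [hbody] at h
  exact LB_sub q h

lemma generated {n : ℕ} {K : Set (Fin n → ℝ)} (h : Generated n K) {p : ℝ} (hp : 0 < p) :
    Body K ∧ LB p (II n p) K := by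
  induction h with
  | freeSum hK => exact freeSum hp hK
  | @box n j K hK a b hab ih =>
    obtain ⟨h1, h2, h3⟩ := Pool.Agent.TH649.LP.box_all hp ih.1.2.1 ih.1.2.2 (c := 1)
      (by simpa using ih.2) j a b hab
    refine ⟨⟨box_convex ih.1.1 a b, h1, h2⟩, fun z => ?_⟩
    have h4 := Pool.Agent.TH649.LP.box_main hp ih.1.2.1 ih.1.2.2 (c := 1) (by simpa using ih.2)
      a b hab (LinearEquiv.refl ℝ _) z
    have e : (LinearEquiv.refl ℝ (Fin (n + j) → ℝ)) '' Pool.Agent.TH649.LP.boxS K a b =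
        boxProduct K a b := by
      ext w
      constructor
      · rintro ⟨x, hx, rfl⟩
        exact hx
      · intro hw
        exact ⟨w, hw, rfl⟩
    rw [e, one_mul] at h4
    refine h4.trans ?_
    calc _ ≤ ENNReal.ofReal 1 * Mp p ((fun x => x - z) '' boxProduct K a b) :=
          mul_le_mul_left (ENNReal.ofReal_le_ofReal (QQ_le n j)) _
      _ = _ := by rw [ENNReal.ofReal_one, one_mul]
  | @affine n K hK T z ih =>
    have hT : Continuous T := LinearMap.continuous_of_finiteDimensional T.toLinearMap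
    have bT : Body (T '' K) :=
      ⟨ih.1.1.linear_image T.toLinearMap, ih.1.2.1.image hT, int_image T ih.1.2.2⟩
    exact ⟨shift_body bT z, LB_sub' z (LB_image hp T ih.1.2.1 ih.1.2.2 ih.2)⟩
  | @between n K hK θ β hβ a b ha hb h₁ h₂ ih₁ ih₂ =>
    refine ⟨hK, fun z => ?_⟩
    have h1 := (movement hp hK hβ ha hb z).1
    have h2 : II n p ≤ mahlerMin p (move θ β (-a) K) := le_iInf ih₁.2
    have h3 : II n p ≤ mahlerMin p (move θ β b K) := le_iInf ih₂.2
    have hab : 0 < a + b := by linarith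
    rw [← ENNReal.inv_le_inv]
    refine h1.trans ?_
    calc ENNReal.ofReal (b / (a + b)) * (mahlerMin p (move θ β (-a) K))⁻¹ +
          ENNReal.ofReal (a / (a + b)) * (mahlerMin p (move θ β b K))⁻¹
        ≤ ENNReal.ofReal (b / (a + b)) * (II n p)⁻¹ +
          ENNReal.ofReal (a / (a + b)) * (II n p)⁻¹ :=
          add_le_add (mul_le_mul_right (ENNReal.inv_le_inv.2 h2) _)
            (mul_le_mul_right (ENNReal.inv_le_inv.2 h3) _)
      _ = (II n p)⁻¹ := by
          rw [← add_mul, ← ENNReal.ofReal_add (by positivity) (by positivity)]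
          have e : b / (a + b) + a / (a + b) = 1 := by field_simp; ring
          rw [e, ENNReal.ofReal_one, one_mul]

/-- a body of smallest `M_p` has only affine movements of its chords among convex bodies -/
lemma rigid {n : ℕ} {p : ℝ} (hp : 0 < p) {K : Set (Fin n → ℝ)} (hK : Body K)
    (hmin : ∀ L : Set (Fin n → ℝ), Body L → mahlerVolume p K ≤ mahlerVolume p L)
    {θ : Fin n → ℝ} (hθ : θ ≠ 0) {β : (Fin n → ℝ) → ℝ} (hβ : IsVelocity θ β)
    (hna : NotAffineOn K β) {a b : ℝ} (ha : 0 < a) (hb : 0 < b)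
    (h1 : Convex ℝ (move θ β (-a) K)) (h2 : Convex ℝ (move θ β b K)) : False := by
  have hbody : ∀ t, Convex ℝ (move θ β t K) → Body (move θ β t K) := fun t ht =>
    ⟨ht, hK.2.1.image (by have := hβ.1; fun_prop), mv_int hK.2.2 hβ.1 hβ.2 t⟩
  have hle : ∀ t, Convex ℝ (move θ β t K) → mahlerVolume p K ≤ mahlerMin p (move θ β t K) :=
    fun t ht => le_iInf fun z => hmin _ (shift_body (hbody t ht) z)
  have h := (movement hp hK hβ ha hb 0).2 hθ hna
  have e0 : shift K 0 = K := by
    unfold shift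
    simp
  rw [e0] at h
  have hab : 0 < a + b := by linarith
  refine absurd h (not_lt.2 ?_)
  calc ENNReal.ofReal (b / (a + b)) * (mahlerMin p (move θ β (-a) K))⁻¹ +
        ENNReal.ofReal (a / (a + b)) * (mahlerMin p (move θ β b K))⁻¹
      ≤ ENNReal.ofReal (b / (a + b)) * (mahlerVolume p K)⁻¹ +
        ENNReal.ofReal (a / (a + b)) * (mahlerVolume p K)⁻¹ :=
        add_le_add (mul_le_mul_right (ENNReal.inv_le_inv.2 (hle _ h1)) _)
          (mul_le_mul_right (ENNReal.inv_le_inv.2 (hle _ h2)) _)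
    _ = (mahlerVolume p K)⁻¹ := by
        rw [← add_mul, ← ENNReal.ofReal_add (by positivity) (by positivity)]
        have e : b / (a + b) + a / (a + b) = 1 := by field_simp; ring
        rw [e, ENNReal.ofReal_one, one_mul]

/-- **Movements of the chords of convex bodies, for every `p > 0` and in all dimensions; rigidity
of minimisers; Q1 for the class of bodies generated by the free sums of planar bodies and
simplices.** -/
theorem result :
    -- (1) the convexity of `1 / inf_z M_p(K_t - z)`, and the strict convexity unless `β` is affine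
    (∀ (n : ℕ) (p : ℝ), 0 < p → ∀ K : Set (Fin n → ℝ), Body K →
      ∀ (θ : Fin n → ℝ) (β : (Fin n → ℝ) → ℝ), IsVelocity θ β → ∀ a b : ℝ, 0 < a → 0 < b →
        (mahlerMin p K)⁻¹ ≤ ENNReal.ofReal (b / (a + b)) * (mahlerMin p (move θ β (-a) K))⁻¹ +
          ENNReal.ofReal (a / (a + b)) * (mahlerMin p (move θ β b K))⁻¹ ∧
        (θ ≠ 0 → NotAffineOn K β → ∀ z : Fin n → ℝ, (mahlerVolume p (shift K z))⁻¹ <
          ENNReal.ofReal (b / (a + b)) * (mahlerMin p (move θ β (-a) K))⁻¹ +
            ENNReal.ofReal (a / (a + b)) * (mahlerMin p (move θ β b K))⁻¹)) ∧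
    -- (2) rigidity of the bodies of smallest `M_p`
    (∀ (n : ℕ) (p : ℝ), 0 < p → ∀ K : Set (Fin n → ℝ), Body K →
      (∀ L : Set (Fin n → ℝ), Body L → mahlerVolume p K ≤ mahlerVolume p L) →
      ∀ θ : Fin n → ℝ, θ ≠ 0 → ∀ β : (Fin n → ℝ) → ℝ, IsVelocity θ β → NotAffineOn K β →
        ∀ a b : ℝ, 0 < a → 0 < b →
          ¬ (Convex ℝ (move θ β (-a) K) ∧ Convex ℝ (move θ β b K))) ∧
    -- (3) Q1 for the generated class, in every position
    (∀ (n : ℕ) (K : Set (Fin n → ℝ)), Generated n K → ∀ p : ℝ, 0 < p → ∀ z : Fin n → ℝ,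
      simplexInf n p ≤ mahlerVolume p (shift K z)) := by
  refine ⟨fun n p hp K hK θ β hβ a b ha hb => ⟨?_, fun hθ hna z =>
      (movement hp hK hβ ha hb z).2 hθ hna⟩,
    fun n p hp K hK hmin θ hθ β hβ hna a b ha hb h => rigid hp hK hmin hθ hβ hna ha hb h.1 h.2,
    fun n K h p hp z => (generated h hp).2 z⟩
  unfold mahlerMin
  rw [ENNReal.inv_iInf]
  exact iSup_le fun z => (movement hp hK hβ ha hb z).1

end Pool.Agent.Results.MP_5f4cdd_gt.ChordMovements

end
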