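import Pool.Agent.Y505.MA.Main

/-!
# The non-symmetric `L^p`-Mahler inequality with a threshold independent of the dimension

For bodies whose asymmetry is not the largest possible on the exponential scale (for example
`|K - K| ≤ κ^n |K|` with `κ < 4`) the inequality of Q1 holds for all `p ≥ p₀`, where `p₀` depends on
the asymmetry only, in all dimensions.  It rests on the inequality
`M_∞(K) ≥ (e^(2t-1)/t²)^n`, `t = κ/4`, which is sharp on the exponential scale both for symmetric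
bodies (`t = 1/2`) and for general bodies (`t = 1`).
-/

set_option autoImplicit false

noncomputable section

open MeasureTheory
open scoped ENNReal Pointwise

namespace Pool.Agent.Results.MP_5f4cdd_gt.DimensionFreeThreshold

/-- convex bodies in `ℝⁿ` (in any position) -/
def Body {n : ℕ} (K : Set (Fin n → ℝ)) : Prop := Convex ℝ K ∧ IsCompact K ∧ (interior K).Nonempty

/-- The `L^p`-Mahler volume `M_p(K) = vol(K) ∫ exp(-h_{p,K}(y)) dy` for `0 < p < ∞`, where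
`exp(-h_{p,K}(y)) = ((1/vol K) ∫_K exp(p⟨x,y⟩) dx)^(-1/p)`. -/
def mahlerVolume {n : ℕ} (p : ℝ) (K : Set (Fin n → ℝ)) : ℝ≥0∞ :=
  volume K * ∫⁻ y : Fin n → ℝ, ENNReal.ofReal
    (((∫ x in K, Real.exp (p * ∑ i, x i * y i)) / (volume K).toReal) ^ (-(1 / p)))

/-- The classical Mahler volume `M_∞(K) = vol(K) ∫ exp(-h_K(y)) dy` (the case `p = ∞`), where
`h_K(y) = sup_{x ∈ K} ⟨x, y⟩`. -/
def mahlerInf {n : ℕ} (K : Set (Fin n → ℝ)) : ℝ≥0∞ :=
  volume K * ∫⁻ y : Fin n → ℝ, ENNReal.ofReal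
    (Real.exp (-(sSup ((fun x : Fin n → ℝ => ∑ i, x i * y i) '' K))))

/-- the standard simplex `Δ_n` -/
def simplex (n : ℕ) : Set (Fin n → ℝ) := {z | (∀ i, 0 ≤ z i) ∧ ∑ i, z i ≤ 1}

/-- the infimum of `M_p(Δ_n - x)` over `x ∈ Δ_n` -/
def simplexInf (n : ℕ) (p : ℝ) : ℝ≥0∞ :=
  ⨅ x ∈ simplex n, mahlerVolume p ((fun z : Fin n → ℝ => z - x) '' simplex n)

/-- `K` is a simplex with centroid at the origin: the convex hull of `n + 1` affinely independent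
points whose sum is `0` -/
def CentredSimplex {n : ℕ} (K : Set (Fin n → ℝ)) : Prop :=
  ∃ v : Fin (n + 1) → (Fin n → ℝ), AffineIndependent ℝ v ∧ ∑ i, v i = 0 ∧
    K = convexHull ℝ (Set.range v)

/-- the polar set -/
def polar {n : ℕ} (K : Set (Fin n → ℝ)) : Set (Fin n → ℝ) := {y | ∀ x ∈ K, ∑ i, x i * y i ≤ 1}

/-- The asymmetry of `K` is at most `t` in one of three senses: `|K - K| ≤ (4t)^n |K|`, or
`|conv((1-u)K ∪ -uK)| ≤ t^n |K|` for some `u ∈ [0,1]`, or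
`|K ∩ -K| ≥ (2t e^(1-2t))^n |K|`. -/
def AsymmetryAtMost {n : ℕ} (t : ℝ) (K : Set (Fin n → ℝ)) : Prop :=
  volume.real (K - K) ≤ (4 * t) ^ n * volume.real K ∨
  (∃ u ∈ Set.Icc (0:ℝ) 1, volume.real (convexHull ℝ ((1 - u) • K ∪ (-u) • K)) ≤
    t ^ n * volume.real K) ∨
  (2 * t * Real.exp (1 - 2 * t)) ^ n * volume.real K ≤ volume.real (K ∩ -K)

/-- the number `e^(2t-1)/t²`, decreasing from `4` at `t = 1/2` to `e` at `t = 1` -/
def base (t : ℝ) : ℝ := Real.exp (2 * t - 1) / t ^ 2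

/-- the rate `r(p) = e^(1+1/p) p^(1/p) Γ(1+1/p)`, the limit of the `n`-th roots of the infima
`inf_x M_p(Δ_n - x)` -/
def rate (p : ℝ) : ℝ := Real.exp (1 + 1 / p) * p ^ (1 / p) * Real.Gamma (1 + 1 / p)

/-- `b_p(m) = (1+1/p)^((1+1/p)/2) (p/2π)^(1/(2p)) m^(1+1/(2p))` -/
def bound (p m : ℝ) : ℝ :=
  ((1 + 1 / p) ^ ((1 + 1 / p) / 2) * (p / (2 * Real.pi)) ^ (1 / (2 * p))) * m ^ (1 + 1 / (2 * p))

lemma polar_eq {n : ℕ} (K : Set (Fin n → ℝ)) : polar K = H801NS.pol K := rfl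

lemma reg {n : ℕ} {t : ℝ} {K : Set (Fin n → ℝ)}
    (h : AsymmetryAtMost t K ∨ AsymmetryAtMost t (polar K)) :
    Pool.Agent.Y505.MA.Reg t K ∨ Pool.Agent.Y505.MA.Reg t (H801NS.pol K) := h

/-- **The non-symmetric `L^p`-Mahler inequality with a threshold independent of the dimension.** -/
theorem result :
    -- the inequality of Q1 for all `p ≥ p₀(t)` in all dimensions
    (∀ t : ℝ, 1 / 2 ≤ t → t < 1 → ∃ p₀ : ℝ, 0 < p₀ ∧ ∀ p : ℝ, p₀ ≤ p → ∀ n : ℕ, 1 ≤ n →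
      ∀ K : Set (Fin n → ℝ), Body K → (AsymmetryAtMost t K ∨ AsymmetryAtMost t (polar K)) →
        simplexInf n p ≤ mahlerVolume p K ∧
        (¬ CentredSimplex K → simplexInf n p < mahlerVolume p K)) ∧
    -- the lower bounds on which it rests, for all `p` and all dimensions
    (∀ t : ℝ, 1 / 2 ≤ t → t ≤ 1 → ∀ n : ℕ, ∀ K : Set (Fin n → ℝ), Body K →
      (AsymmetryAtMost t K ∨ AsymmetryAtMost t (polar K)) →
        ENNReal.ofReal (base t ^ n) ≤ mahlerInf K ∧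
        ∀ p : ℝ, 0 < p → ENNReal.ofReal (bound p (base t) ^ n) ≤ mahlerVolume p K) ∧
    -- strict inequality in high dimensions under an explicit condition on `p` and `t`
    (∀ p t : ℝ, 0 < p → 1 / 2 ≤ t → t ≤ 1 → rate p < bound p (base t) →
      ∃ n₀ : ℕ, ∀ n : ℕ, n₀ ≤ n → ∀ K : Set (Fin n → ℝ), Body K →
        (AsymmetryAtMost t K ∨ AsymmetryAtMost t (polar K)) →
        simplexInf n p < mahlerVolume p K) := by
  refine ⟨fun t ht ht1 => ?_, fun t ht ht1 n K hK hR => ⟨?_, fun p hp => ?_⟩,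
    fun p t hp ht ht1 hlt => ?_⟩
  · obtain ⟨p₀, h0, h⟩ := Pool.Agent.Y505.MA.all_dim ht ht1
    exact ⟨p₀, h0, fun p hp n hn K hK hR => h p hp n hn K hK.1 hK.2.1 hK.2.2 (reg hR)⟩
  · exact Pool.Agent.Y505.MA.mah_ge hK.1 hK.2.1 hK.2.2 ht ht1 (reg hR)
  · exact Pool.Agent.Y505.MA.mahp_ge hK.1 hK.2.1 hK.2.2 ht ht1 (reg hR) hp
  · obtain ⟨n0, hn0⟩ := Pool.Agent.TH649.LP.II_lt hp hlt
    exact ⟨n0, fun n hn K hK hR => lt_of_lt_of_le (hn0 n hn)
      (Pool.Agent.Y505.MA.mahp_ge hK.1 hK.2.1 hK.2.2 ht ht1 (reg hR) hp)⟩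

end Pool.Agent.Results.MP_5f4cdd_gt.DimensionFreeThreshold

end
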