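import Pool.Agent.Y513.LPM.R

/-!
# Local minimisers of the non-symmetric `L^p` Mahler volume are flat almost everywhere

Let `n ≥ 2`, `0 < p < ∞`, and let `K` be a convex body in `ℝ^n` with the origin in its interior
that minimises the `L^p` Mahler volume among all such bodies in some Hausdorff neighbourhood of
`K`.  At every boundary point `x` of `K` that lies on no nondegenerate boundary segment the
extreme points of `K` are porous in the boundary: there are `c > 0` and boundary points `y ≠ x`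
arbitrarily close to `x` such that no extreme point of `K` is within `c |y - x|` of `y`.  In
particular almost every boundary point of `K` lies on a nondegenerate boundary segment.
-/

set_option autoImplicit false

open MeasureTheory

namespace Pool.Agent.Results.MP_5f4cdd_gt.FlatLocalMinimisers

/-- convex bodies with the origin in the interior -/
def IsBodyAroundZero {n : ℕ} (K : Set (EuclideanSpace ℝ (Fin n))) : Prop :=
  IsCompact K ∧ Convex ℝ K ∧ (0 : EuclideanSpace ℝ (Fin n)) ∈ interior K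

/-- the `L^p` support function `(1/p) log (∫_K exp (p ⟨x, y⟩) dx / |K|)` -/
noncomputable def supportLp (p : ℝ) {n : ℕ} (K : Set (EuclideanSpace ℝ (Fin n)))
    (y : EuclideanSpace ℝ (Fin n)) : ℝ :=
  (1 / p) * Real.log ((∫ x in K, Real.exp (p * inner ℝ x y)) / volume.real K)

/-- the `L^p` Mahler volume `|K| ∫ exp (-h_{p,K})` -/
noncomputable def mahlerLp (p : ℝ) {n : ℕ} (K : Set (EuclideanSpace ℝ (Fin n))) : ENNReal :=
  volume K * ∫⁻ y : EuclideanSpace ℝ (Fin n), ENNReal.ofReal (Real.exp (-supportLp p K y))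

/-- `x` lies on a nondegenerate segment contained in the boundary of `K` -/
def OnSegment {n : ℕ} (K : Set (EuclideanSpace ℝ (Fin n))) (x : EuclideanSpace ℝ (Fin n)) :
    Prop :=
  ∃ y ∈ K, y ≠ x ∧ segment ℝ x y ⊆ frontier K

/-- **Local minimisers are flat almost everywhere.** -/
theorem result {n : ℕ} (hn : 2 ≤ n) {p : ℝ} (hp : 0 < p)
    {K : Set (EuclideanSpace ℝ (Fin n))} (hK : IsBodyAroundZero K)
    (hmin : ∃ δ : ℝ, 0 < δ ∧ ∀ L : Set (EuclideanSpace ℝ (Fin n)), IsBodyAroundZero L →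
      Metric.hausdorffDist K L < δ → mahlerLp p K ≤ mahlerLp p L) :
    (∀ x ∈ frontier K, ¬ OnSegment K x → ∃ c : ℝ, 0 < c ∧ ∀ ρ : ℝ, 0 < ρ →
      ∃ y ∈ frontier K, 0 < dist y x ∧ dist y x < ρ ∧
        ∀ e ∈ K.extremePoints ℝ, c * dist y x < dist e y) ∧
    volume {z : EuclideanSpace ℝ (Fin n) |
      ∃ t : ℝ, 0 < t ∧ ∃ x ∈ frontier K, ¬ OnSegment K x ∧ z = t • x} = 0 := by
  obtain ⟨δ, hδ, h⟩ := hmin
  have hB : Pool.Agent.Y513.LPM.Bd false K := ⟨hK.1, hK.2.1, hK.2.2, by simp⟩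
  have hm : ∃ δ : ℝ, 0 < δ ∧ ∀ L : Set (Pool.Agent.Y513.LPM.E n),
      Pool.Agent.Y513.LPM.Bd false L → Metric.hausdorffDist K L < δ →
      Pool.Agent.Y513.LPM.mahlerLp p K ≤ Pool.Agent.Y513.LPM.mahlerLp p L :=
    ⟨δ, hδ, fun L hL hKL => h L ⟨hL.cpt, hL.cvx, hL.zero⟩ hKL⟩
  have hseg : ∀ x : EuclideanSpace ℝ (Fin n), ¬ OnSegment K x ↔
      ∀ y ∈ K, y ≠ x → ¬ segment ℝ x y ⊆ frontier K := by
    intro x
    unfold OnSegment
    push Not
    rfl
  refine ⟨fun x hx hxs => ?_, ?_⟩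
  · exact Pool.Agent.Y513.LPM.porosity hn hp hB hm hx ((hseg x).1 hxs)
  · have h1 := Pool.Agent.Y513.LPM.cone_null hn hp hB hm
    simp only [hseg]
    exact h1

end Pool.Agent.Results.MP_5f4cdd_gt.FlatLocalMinimisers
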