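import Pool.Agent.Y589.TLA

set_option autoImplicit false

noncomputable section

open MeasureTheory
open scoped ENNReal

namespace Pool.Agent.Results.MP_5f4cdd_gt.TreeLikeHulls

/-- The `L^p`-Mahler volume `M_p(K) = vol(K) ∫ exp(-h_{p,K}(y)) dy` for `0 < p < ∞`, where
`exp(-h_{p,K}(y)) = ((1/vol K) ∫_K exp(p⟨x,y⟩) dx)^(-1/p)`. -/
def mahlerVolume {n : ℕ} (p : ℝ) (K : Set (Fin n → ℝ)) : ℝ≥0∞ :=
  volume K * ∫⁻ y : Fin n → ℝ, ENNReal.ofReal
    (((∫ x in K, Real.exp (p * ∑ i, x i * y i)) / (volume K).toReal) ^ (-(1 / p)))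

/-- the standard simplex `Δ_n` -/
def simplex (n : ℕ) : Set (Fin n → ℝ) := {z | (∀ i, 0 ≤ z i) ∧ ∑ i, z i ≤ 1}

/-- the infimum of `M_p(Δ_n - x)` over `x ∈ Δ_n` -/
def simplexInf (n : ℕ) (p : ℝ) : ℝ≥0∞ :=
  ⨅ x ∈ simplex n, mahlerVolume p ((fun z : Fin n → ℝ => z - x) '' simplex n)

/-- finite point sets built from single points by joins (cost one) and by glueing two sets whose
convex hulls meet (no cost); the natural number is the total cost -/
inductive TreeLike {n : ℕ} : Set (Fin n → ℝ) → ℕ → Prop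
  | point (x : Fin n → ℝ) : TreeLike {x} 0
  | join {A B : Set (Fin n → ℝ)} {a b : ℕ} : TreeLike A a → TreeLike B b →
      TreeLike (A ∪ B) (a + b + 1)
  | glue {A B : Set (Fin n → ℝ)} {a b : ℕ} : TreeLike A a → TreeLike B b →
      (convexHull ℝ A ∩ convexHull ℝ B).Nonempty → TreeLike (A ∪ B) (a + b)

/-- **The non-symmetric `L^p`-Mahler inequality for tree-like polytopes**, in every position. -/
theorem result (n : ℕ) (p : ℝ) (hp : 0 < p) (T : Set (Fin n → ℝ)) (hT : TreeLike T n)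
    (hi : (interior (convexHull ℝ T)).Nonempty) :
    simplexInf n p ≤ mahlerVolume p (convexHull ℝ T) := by
  have key : ∀ (A : Set (Fin n → ℝ)) (a : ℕ), TreeLike A a →
      ∃ g : ℕ, Pool.Agent.Y589.TLA.TL A a g := by
    intro A a h
    induction h with
    | point x => exact ⟨0, .point x⟩
    | join _ _ h1 h2 =>
      obtain ⟨g, h1⟩ := h1
      obtain ⟨k, h2⟩ := h2
      exact ⟨g + k, .join h1 h2⟩
    | glue _ _ hz h1 h2 =>
      obtain ⟨g, h1⟩ := h1
      obtain ⟨k, h2⟩ := h2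
      exact ⟨g + k + 1, .glue h1 h2 hz⟩
  obtain ⟨g, h⟩ := key T n hT
  have h1 := Pool.Agent.Y589.TLA.main hp g T n le_rfl h hi 0
  have e : (fun x : Fin n → ℝ => x - 0) '' convexHull ℝ T = convexHull ℝ T := by simp
  rw [e] at h1
  exact h1

end Pool.Agent.Results.MP_5f4cdd_gt.TreeLikeHulls
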